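import Pool.Agent.W345.GK.Cl2

set_option autoImplicit false

open Polynomial Finset
open scoped TensorProduct nonZeroDivisors

namespace Pool.Agent.W806.GK

open Pool.Agent.W345.GK

section
variable {k Fc : Type} [Field k] [Field Fc] [Algebra k[X] Fc]

lemma isInt_pow (P : k[X]) (n : ℕ) : IsIntegral k[X] ((algebraMap k[X] Fc P) ^ n) := by
  rw [← map_pow]; exact isIntegral_algebraMap

lemma op_zero (P : k[X]) : OP P (0 : Fc) := ⟨0, by simpa using isIntegral_zero⟩

lemma op_add (P : k[X]) {x y : Fc} (hx : OP P x) (hy : OP P y) : OP P (x + y) := by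
  obtain ⟨n, hn⟩ := hx
  obtain ⟨m, hm⟩ := hy
  refine ⟨n + m, ?_⟩
  have h : (algebraMap k[X] Fc P) ^ (n + m) * (x + y) =
      (algebraMap k[X] Fc P) ^ m * ((algebraMap k[X] Fc P) ^ n * x) +
      (algebraMap k[X] Fc P) ^ n * ((algebraMap k[X] Fc P) ^ m * y) := by
    ring
  rw [h]
  exact ((isInt_pow P m).mul hn).add ((isInt_pow P n).mul hm)

lemma op_smul (P : k[X]) (a : k[X]) {x : Fc} (hx : OP P x) :
    OP P (algebraMap k[X] Fc a * x) := by
  obtain ⟨n, hn⟩ := hx
  refine ⟨n, ?_⟩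
  have h : (algebraMap k[X] Fc P) ^ n * (algebraMap k[X] Fc a * x) =
      algebraMap k[X] Fc a * ((algebraMap k[X] Fc P) ^ n * x) := by ring
  rw [h]
  exact isIntegral_algebraMap.mul hn

lemma op_sum (P : k[X]) {α : Type} (s : Finset α) (f : α → Fc) (h : ∀ i ∈ s, OP P (f i)) :
    OP P (∑ i ∈ s, f i) := by
  classical
  induction s using Finset.induction_on with
  | empty => simpa using op_zero P
  | insert a s ha ih =>
    rw [Finset.sum_insert ha]
    exact op_add P (h a (Finset.mem_insert_self a s))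
      (ih fun i hi => h i (Finset.mem_insert_of_mem hi))

end

theorem xh : S_XH1 → S_FX → S_SPN → S_XH := by
  intro hXH1 hFX hSPN
  intro k F Fc _ _ _ _ _ _ _ _ _ p _ _ P θ κ c Lam ι D hPm hPi hθ hLam hι hD hκ hκ2 hdvd
  obtain ⟨J, E, hJinj, hJ, hJE, hEinj, hEeq, hEop⟩ :=
    hXH1 k F Fc P θ κ c Lam ι hPm hPi hθ hLam hι hκ hκ2 hdvd
  refine ⟨E, hEinj, fun h hh => ⟨fun a ha => hEeq h a ha, ?_⟩⟩
  have hfix := (hFX k F P θ Lam κ hPm hPi hθ hLam hκ hκ2 hdvd h).2 hh
  rw [← hJE h] at hfix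
  obtain ⟨n, u, w, hw, hEh⟩ := hEop h
  have : Module.Finite k F := Module.Finite.of_finite
  let b := Module.finBasis k F
  set d := Module.finrank k F with hd
  let y : Fin d → Fc := fun i => ∑ l, (b.repr (u l) i) • w l
  have hCs : ∀ (a : k) (x : Fc), a • x = algebraMap k[X] Fc (C a) * x := by
    intro a x
    rw [Algebra.smul_def, IsScalarTower.algebraMap_apply k k[X] Fc]
    rfl
  have hyop : ∀ i, OP P (y i) := by
    intro i
    apply op_sum
    intro l _
    rw [hCs]
    exact op_smul P _ (hw l)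
  have hEy : E h = ∑ i, b i ⊗ₜ[k] y i := by
    rw [hEh]
    simp only [y, TensorProduct.tmul_sum]
    rw [Finset.sum_comm]
    refine Finset.sum_congr rfl fun l _ => ?_
    conv_lhs => rw [← b.sum_repr (u l)]
    rw [TensorProduct.sum_tmul]
    refine Finset.sum_congr rfl fun i _ => ?_
    rw [TensorProduct.smul_tmul]
  -- coefficients
  have hrat : ∀ (i : Fin d) (j : ℤ), ∃ r : k, algebraMap k F r = (ι (y i)).coeff j :=
    fun i j => hι.rat (y i) j
  choose r hr using hrat
  have hcoef : ∀ j : ℤ, (J (E h)).coeff j = ∑ i, r i j • b i := by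
    intro j
    rw [hEy, map_sum, HahnSeries.coeff_sum]
    refine Finset.sum_congr rfl fun i _ => ?_
    rw [hJ, HahnSeries.C_mul_eq_smul, HahnSeries.coeff_smul, ← hr, smul_eq_mul, Algebra.smul_def, mul_comm]
  have hyfix : ∀ i, Fixd (Fintype.card k) (ι (y i)) := by
    intro i j
    rw [← hr, ← hr]
    congr 1
    have h1 := hfix j
    rw [hcoef, hcoef] at h1
    have h2 : ∑ i, (r i j - r i ((Fintype.card k : ℤ) * j - ((Fintype.card k : ℤ) - 1) ^ 2)) • b i
        = 0 := by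
      simp only [sub_smul]
      rw [Finset.sum_sub_distrib, h1, sub_self]
    have h3 := (Fintype.linearIndependent_iff.1 b.linearIndependent) _ h2 i
    exact sub_eq_zero.1 h3
  have hsp : ∀ i : Fin d, ∃ (n : ℕ) (u : Fin n → k) (f : Fin n → Fc),
      (∀ i, f i ≠ 0 ∧ OP P (D (f i) / f i)) ∧
      y i = ∑ i, algebraMap k[X] Fc (C (u i)) * (D (f i) / f i) := fun i =>
    hSPN k F Fc p P c Lam ι D hPm hPi hLam hι hD (y i) (hyop i) (hyfix i)
  choose N v f hf hyf using hsp
  let e := (Fintype.equivFin (Σ i : Fin d, Fin (N i))).symm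
  refine ⟨Fintype.card (Σ i : Fin d, Fin (N i)), fun s => v (e s).1 (e s).2 • b (e s).1,
    fun s => f (e s).1 (e s).2, fun s => hf (e s).1 (e s).2, ?_⟩
  rw [hEy]
  rw [e.sum_comp (fun t : (Σ i : Fin d, Fin (N i)) => (v t.1 t.2 • b t.1) ⊗ₜ[k]
    (D (f t.1 t.2) / f t.1 t.2))]
  rw [Fintype.sum_sigma]
  refine Finset.sum_congr rfl fun i _ => ?_
  rw [hyf i, TensorProduct.tmul_sum]
  refine Finset.sum_congr rfl fun m _ => ?_
  rw [← hCs, TensorProduct.smul_tmul]

end Pool.Agent.W806.GK
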